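import Mathlib
import Pool.Prelude.Def_F_c31e40fa
import Pool.Agent.H712R2.Par
import Pool.Agent.H713R2.Ext1
import Pool.Agent.Helper217.Width.SL

/-!
# Followed preimages of the critical point
-/

set_option autoImplicit false
open Set Filter Topology Metric

namespace Pool.Agent.Helper134.U1

open Pool.Agent.H712R2 (P fc P_succ P_one P_zero)
open Pool.Agent.Helper217.Width (A₀ one_le_A₀ SL)

variable {n : ℕ} {c : ℂ} {r : ℝ}

/-- No superattracting parameters in the ball. -/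
def NoCen (n : ℕ) (c : ℂ) (r : ℝ) : Prop := ∀ t ∈ ball c r, ∀ m, 1 ≤ m → P n m t ≠ 0

/-- A preimage of the critical point which can be followed over the ball, with speed at most one
at the centre. -/
def Good (n : ℕ) (c : ℂ) (r : ℝ) (y : ℂ) : Prop :=
  ∃ Y : ℂ → ℂ, DifferentiableOn ℂ Y (ball c r) ∧ Y c = y ∧
    (∀ t ∈ ball c r, ∃ k, (fc n t)^[k] (Y t) = 0) ∧ ‖deriv Y c‖ ≤ 1

theorem good_zero : Good n c r 0 :=
  ⟨fun _ => 0, differentiableOn_const _, rfl, fun _ _ => ⟨0, rfl⟩, by simp⟩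

theorem Y_ne (hn : 2 ≤ n) (hno : NoCen n c r) {y t : ℂ} (ht : t ∈ ball c r) {k : ℕ}
    (hk : (fc n t)^[k] y = 0) : y ≠ t := by
  intro h
  rw [h, Pool.Agent.H712R2.iter_c hn] at hk
  exact hno t ht (k + 1) (by omega) hk

theorem Good.ne (hn : 2 ≤ n) (hr : 0 < r) (hno : NoCen n c r) {y : ℂ} (hy : Good n c r y) :
    y ≠ c := by
  obtain ⟨Y, -, hYc, hYk, -⟩ := hy
  obtain ⟨k, hk⟩ := hYk c (mem_ball_self hr)
  rw [← hYc]
  exact Y_ne hn hno (mem_ball_self hr) hk

theorem Good.root (hn : 2 ≤ n) (hr : 0 < r) (hno : NoCen n c r) {y u : ℂ} (hy : Good n c r y)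
    (hu : u ^ n = y - c) (hu2 : 2 ≤ n * ‖u‖ ^ (n - 1)) : Good n c r u := by
  obtain ⟨Y, hYd, hYc, hYk, hYb⟩ := hy
  have hn0 : (n : ℂ) ≠ 0 := by
    have : n ≠ 0 := by omega
    exact_mod_cast this
  have hcm : c ∈ ball c r := mem_ball_self hr
  have hne : ∀ t ∈ ball c r, Y t - t ≠ 0 := by
    intro t ht h
    obtain ⟨k, hk⟩ := hYk t ht
    exact Y_ne hn hno ht hk (sub_eq_zero.mp h)
  have hu0 : u ≠ 0 := by
    intro h0
    have := hne c hcm
    rw [hYc, ← hu, h0, zero_pow (by omega)] at this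
    exact this rfl
  have hgd : DifferentiableOn ℂ (fun t => Y t - t) (ball c r) := hYd.sub differentiableOn_id
  obtain ⟨l, hl1, hl2, hl3⟩ := Pool.Agent.H712R2.M.exists_log_ball hr hgd hne (n * Complex.log u)
    (by rw [Complex.exp_nat_mul, Complex.exp_log hu0, hu, hYc])
  have hpow : ∀ t ∈ ball c r, Complex.exp (l t / n) ^ n = Y t - t := by
    intro t ht
    rw [← Complex.exp_nat_mul, mul_div_cancel₀ _ hn0, hl3 t ht]
  have hUd : DifferentiableOn ℂ (fun t => Complex.exp (l t / n)) (ball c r) :=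
    (hl1.div_const _).cexp
  have hUc : Complex.exp (l c / n) = u := by
    rw [hl2, mul_div_cancel_left₀ _ hn0, Complex.exp_log hu0]
  refine ⟨fun t => Complex.exp (l t / n), hUd, hUc, ?_, ?_⟩
  · intro t ht
    obtain ⟨k, hk⟩ := hYk t ht
    refine ⟨k + 1, ?_⟩
    rw [Function.iterate_succ_apply]
    have : fc n t (Complex.exp (l t / n)) = Y t := by
      simp only [fc]
      rw [hpow t ht]
      ring
    rw [this, hk]
  · have hnhds := isOpen_ball.mem_nhds hcm
    have hU1 : HasDerivAt (fun t => Complex.exp (l t / n))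
        (deriv (fun t => Complex.exp (l t / n)) c) c := (hUd.differentiableAt hnhds).hasDerivAt
    set U' := deriv (fun t => Complex.exp (l t / n)) c with hU'
    have h1 := hU1.pow n
    rw [hUc] at h1
    have h2 : HasDerivAt (fun t => Y t - t) (deriv Y c - 1) c :=
      ((hYd.differentiableAt hnhds).hasDerivAt).sub (hasDerivAt_id c)
    have h3 : HasDerivAt (fun t => Y t - t) (n * u ^ (n - 1) * U') c := by
      refine h1.congr_of_eventuallyEq ?_
      filter_upwards [hnhds] with t ht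
      exact (hpow t ht).symm
    have h4 := h3.unique h2
    have h5 : n * ‖u‖ ^ (n - 1) * ‖U'‖ ≤ 2 := by
      have h6 : ‖(n : ℂ) * u ^ (n - 1) * U'‖ ≤ 2 := by
        rw [h4]
        refine (norm_sub_le _ _).trans ?_
        rw [norm_one]
        linarith
      rwa [norm_mul, norm_mul, norm_pow, Complex.norm_natCast] at h6
    have h6 : 2 * ‖U'‖ ≤ n * ‖u‖ ^ (n - 1) * ‖U'‖ :=
      mul_le_mul_of_nonneg_right hu2 (norm_nonneg _)
    linarith

/-- The choice of the argument of a root. -/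
theorem exists_root (hn : 2 ≤ n) {y : ℂ} (hc : c ≠ 0) (hy : y ≠ c) (τ : ℝ) :
    ∃ w : ℂ, w.re = Real.log ‖y - c‖ - n * Real.log ‖c‖ ∧ τ ≤ w.im ∧ w.im ≤ τ + 2 * Real.pi ∧
      (c * Complex.exp (w / n)) ^ n = y - c := by
  have hn0 : (n : ℂ) ≠ 0 := by
    have : n ≠ 0 := by omega
    exact_mod_cast this
  have hyc : y - c ≠ 0 := sub_ne_zero.mpr hy
  have hcn : c ^ n ≠ 0 := pow_ne_zero _ hc
  have hq : (y - c) / c ^ n ≠ 0 := div_ne_zero hyc hcn
  obtain ⟨k, hk, -⟩ := existsUnique_add_zsmul_mem_Ico Real.two_pi_pos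
    (Complex.log ((y - c) / c ^ n)).im τ
  refine ⟨Complex.log ((y - c) / c ^ n) + k * (2 * Real.pi * Complex.I), ?_, ?_, ?_, ?_⟩
  · have h1 : ((k : ℂ) * (2 * Real.pi * Complex.I)).re = 0 := by simp
    rw [Complex.add_re, h1, add_zero, Complex.log_re, norm_div, norm_pow,
      Real.log_div (norm_ne_zero_iff.mpr hyc) (by rw [← norm_pow]; exact norm_ne_zero_iff.mpr hcn),
      Real.log_pow]
  · have h1 : ((k : ℂ) * (2 * Real.pi * Complex.I)).im = k * (2 * Real.pi) := by simp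
    rw [Complex.add_im, h1]
    have := hk.1
    rwa [zsmul_eq_mul] at this
  · have h1 : ((k : ℂ) * (2 * Real.pi * Complex.I)).im = k * (2 * Real.pi) := by simp
    rw [Complex.add_im, h1]
    have := hk.2.le
    rwa [zsmul_eq_mul] at this
  · rw [mul_pow, ← Complex.exp_nat_mul, mul_div_cancel₀ _ hn0, Complex.exp_add,
      Complex.exp_int_mul_two_pi_mul_I, mul_one, Complex.exp_log hq]
    field_simp

/-- Landau's theorem for the cross ratio of `P_{j+1}`, `c`, and a followed preimage. -/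
theorem landau (hn : 2 ≤ n) (hr : 0 < r) (hno : NoCen n c r) {y : ℂ} (hy : Good n c r y) {j : ℕ}
    (hj : 1 ≤ j) : r * n * ‖deriv (P n j) c‖ ≤
      ‖P n j c‖ * (A₀ * (1 + |Real.log (‖P n j c‖ ^ n / ‖y - c‖)|) + 2 * r / ‖y - c‖) := by
  have hyne := hy.ne hn hr hno
  obtain ⟨Y, hYd, hYc, hYk, hYb⟩ := hy
  have hcm : c ∈ ball c r := mem_ball_self hr
  have hnhds := isOpen_ball.mem_nhds hcm
  have hne : ∀ t ∈ ball c r, Y t - t ≠ 0 := by
    intro t ht h
    obtain ⟨k, hk⟩ := hYk t ht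
    exact Y_ne hn hno ht hk (sub_eq_zero.mp h)
  have hPd : Differentiable ℂ (P n j) := Pool.Agent.H713R2.differentiable_P n j
  have hZd : DifferentiableOn ℂ (fun t => P n j t ^ n / (Y t - t)) (ball c r) :=
    (hPd.differentiableOn.pow n).div (hYd.sub differentiableOn_id) hne
  have h0 : ∀ t ∈ ball c r, P n j t ^ n / (Y t - t) ≠ 0 := fun t ht =>
    div_ne_zero (pow_ne_zero _ (hno t ht j hj)) (hne t ht)
  have h1 : ∀ t ∈ ball c r, P n j t ^ n / (Y t - t) ≠ 1 := by
    intro t ht h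
    rw [div_eq_one_iff_eq (hne t ht)] at h
    have h2 : P n (j + 1) t = Y t := by rw [P_succ, h]; ring
    obtain ⟨k, hk⟩ := hYk t ht
    rw [← h2, ← Pool.Agent.H712R2.iter_c hn, ← Function.iterate_add_apply,
      Pool.Agent.H712R2.iter_c hn] at hk
    exact hno t ht _ (by omega) hk
  have hSL := (SL hr hZd h0 h1).2
  have hD : HasDerivAt (fun t => P n j t ^ n / (Y t - t))
      ((P n j c ^ n / (Y c - c)) * (n * deriv (P n j) c / P n j c -
        (deriv Y c - 1) / (Y c - c))) c := by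
    have h2 := ((hPd c).hasDerivAt.pow n).div
      (((hYd.differentiableAt hnhds).hasDerivAt).sub (hasDerivAt_id c)) (hne c hcm)
    convert! h2 using 1
    have h3 := hno c hcm j hj
    have h4 := hne c hcm
    have h5 : P n j c ^ n = P n j c ^ (n - 1) * P n j c := by
      rw [← pow_succ, Nat.sub_add_cancel (by omega)]
    simp only [Pi.pow_apply, Pi.sub_apply, id]
    rw [h5]
    field_simp
  rw [hD.deriv, norm_mul, hYc] at hSL
  have hZ0 : 0 < ‖P n j c ^ n / (y - c)‖ := by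
    rw [norm_pos_iff, ← hYc]
    exact h0 c hcm
  have hPc : 0 < ‖P n j c‖ := norm_pos_iff.mpr (hno c hcm j hj)
  have hyc : 0 < ‖y - c‖ := norm_pos_iff.mpr (sub_ne_zero.mpr hyne)
  have h2 : ‖(n * deriv (P n j) c / P n j c - (deriv Y c - 1) / (y - c))‖ * r ≤
      A₀ * (1 + |Real.log (‖P n j c‖ ^ n / ‖y - c‖)|) := by
    have h3 : ‖P n j c ^ n / (y - c)‖ * (‖(n * deriv (P n j) c / P n j c -
        (deriv Y c - 1) / (y - c))‖ * r) ≤ ‖P n j c ^ n / (y - c)‖ *
          (A₀ * (1 + |Real.log (‖P n j c‖ ^ n / ‖y - c‖)|)) := by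
      rw [← norm_pow, ← norm_div]
      calc _ = _ := by ring
        _ ≤ _ := hSL
        _ = _ := by ring
    exact le_of_mul_le_mul_left h3 hZ0
  have h3 : ‖(n * deriv (P n j) c / P n j c : ℂ)‖ ≤
      ‖(n * deriv (P n j) c / P n j c - (deriv Y c - 1) / (y - c))‖ +
        ‖(deriv Y c - 1) / (y - c)‖ := by
    have := norm_add_le ((n * deriv (P n j) c / P n j c - (deriv Y c - 1) / (y - c)) : ℂ)
      ((deriv Y c - 1) / (y - c))
    rwa [sub_add_cancel] at this
  have h4 : ‖(deriv Y c - 1) / (y - c)‖ ≤ 2 / ‖y - c‖ := by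
    rw [norm_div]
    gcongr
    refine (norm_sub_le _ _).trans ?_
    rw [norm_one]
    linarith
  rw [norm_div, norm_mul, Complex.norm_natCast] at h3
  have h5 : n * ‖deriv (P n j) c‖ / ‖P n j c‖ * r ≤
      A₀ * (1 + |Real.log (‖P n j c‖ ^ n / ‖y - c‖)|) + 2 * r / ‖y - c‖ := by
    have h6 : 2 / ‖y - c‖ * r = 2 * r / ‖y - c‖ := by ring
    nlinarith
  have h6 : r * n * ‖deriv (P n j) c‖ = ‖P n j c‖ * (n * ‖deriv (P n j) c‖ / ‖P n j c‖ * r) := by
    field_simp
  rw [h6]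
  gcongr

end Pool.Agent.Helper134.U1
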