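import Mathlib
import Pool.Agent.Helper134_U1.Basic

/-!
# Followed preimages of the critical point at all distances from the critical value
-/

set_option autoImplicit false
open Set Filter Topology Metric

namespace Pool.Agent.Helper134.U1

open Pool.Agent.H712R2 (P fc P_succ P_one P_zero)

variable {n : ℕ} {c : ℂ} {r s0 : ℝ}

/-- The height of the parameter. -/
noncomputable def TT (n : ℕ) (c : ℂ) : ℝ := Real.log n + n * Real.log ‖c‖

/-- There are followed preimages at all distances at least `s0`, in units of `1 / n`. -/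
def Stat (n : ℕ) (c : ℂ) (r s0 : ℝ) : Prop := ∀ s, s0 ≤ s → s ≤ n / 6 →
  ∃ y, Good n c r y ∧ s / 24 ≤ n * ‖y - c‖ ∧ n * ‖y - c‖ ≤ 24 * s

theorem exp_TT (hn : 2 ≤ n) (hc : 0 < ‖c‖) : Real.exp (TT n c) = n * ‖c‖ ^ n := by
  have hn0 : (0 : ℝ) < n := by
    have : 0 < n := by omega
    exact_mod_cast this
  rw [TT, Real.exp_add, Real.exp_log hn0, ← Real.log_pow, Real.exp_log (by positivity)]

theorem norm_le_four (hn : 2 ≤ n) {z : ℂ} (h : ‖z‖ ^ (n - 1) ≤ 4) : ‖z‖ ≤ 4 := by
  by_contra hcon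
  push Not at hcon
  have h1 : ‖z‖ ≤ ‖z‖ ^ (n - 1) := le_self_pow₀ (by linarith) (by omega)
  linarith

theorem norm_pow_le (hn : 2 ≤ n) {z : ℂ} (h : ‖z‖ ^ (n - 1) ≤ 4) : ‖z‖ ^ n ≤ 16 := by
  have h1 := norm_le_four hn h
  have h2 : ‖z‖ ^ n = ‖z‖ ^ (n - 1) * ‖z‖ := by
    rw [← pow_succ, Nat.sub_add_cancel (by omega)]
  rw [h2]
  have := norm_nonneg z
  have h3 : 0 ≤ ‖z‖ ^ (n - 1) := by positivity
  nlinarith

theorem Stat.step (hn : 2 ≤ n) (hr : 0 < r) (hno : NoCen n c r) (hc1 : 1 / 2 ≤ ‖c‖)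
    (hc2 : ‖c‖ ^ (n - 1) ≤ 4) (h200 : 200 ≤ s0) (hs0 : s0 ≤ n / 6) (h : Stat n c r s0) :
    Stat n c r (200 + max 0 (Real.log s0 - TT n c)) := by
  intro s hs hsn
  have hn0 : (0 : ℝ) < n := by
    have : 0 < n := by omega
    exact_mod_cast this
  have hc0 : 0 < ‖c‖ := by linarith
  set T := TT n c with hT
  have hE := exp_TT hn hc0
  rw [← hT] at hE
  have hE16 : Real.exp T ≤ 16 * n := by
    rw [hE]
    have := norm_pow_le hn hc2
    nlinarith
  have hEpos := Real.exp_pos T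
  set s' := max s0 (min (Real.exp T) (n / 6)) with hs'
  have hs's0 : s0 ≤ s' := le_max_left _ _
  have hs'n : s' ≤ n / 6 := max_le hs0 (min_le_right _ _)
  have hs'E : Real.exp T / 96 ≤ s' := by
    refine le_trans ?_ (le_max_right _ _)
    apply le_min
    · linarith
    · linarith
  obtain ⟨y, hy, hy1, hy2⟩ := h s' hs's0 hs'n
  have hyne := hy.ne hn hr hno
  have hyc : 0 < ‖y - c‖ := norm_pos_iff.mpr (sub_ne_zero.mpr hyne)
  obtain ⟨w, hw1, hw2, hw3, hw4⟩ := exists_root hn (norm_pos_iff.mp hc0) hyne s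
  have hs'0 : 0 < s' := by linarith
  have hlog24 : Real.log 24 ≤ 23 := by
    have := Real.log_le_sub_one_of_pos (show (0:ℝ) < 24 by norm_num)
    linarith
  have hlog96 : Real.log 96 ≤ 95 := by
    have := Real.log_le_sub_one_of_pos (show (0:ℝ) < 96 by norm_num)
    linarith
  have hmax0 := le_max_left 0 (Real.log s0 - T)
  have hmax1 := le_max_right 0 (Real.log s0 - T)
  -- the height of `y - c`
  have ha : Real.log (n * ‖y - c‖) = Real.log n + Real.log ‖y - c‖ :=
    Real.log_mul hn0.ne' hyc.ne'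
  have hwre : w.re = Real.log (n * ‖y - c‖) - T := by
    rw [hw1, ha, hT, TT]
    ring
  have hup : Real.log (n * ‖y - c‖) - T ≤ s - 100 := by
    have h1 : Real.log (n * ‖y - c‖) ≤ Real.log 24 + Real.log s' := by
      rw [← Real.log_mul (by norm_num) hs'0.ne']
      exact Real.log_le_log (by positivity) hy2
    have h2 : Real.log s' ≤ T + max 0 (Real.log s0 - T) := by
      have h3 : s' ≤ max s0 (Real.exp T) := max_le_max le_rfl (min_le_left _ _)
      rcases le_total s0 (Real.exp T) with h4 | h4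
      · rw [max_eq_right h4] at h3
        have h5 := Real.log_le_log hs'0 h3
        rw [Real.log_exp] at h5
        linarith
      · rw [max_eq_left h4] at h3
        have h5 := Real.log_le_log hs'0 h3
        linarith
    linarith
  have hlow : -(s - 80) ≤ Real.log (n * ‖y - c‖) - T := by
    have h1 : Real.log (s' / 24) ≤ Real.log (n * ‖y - c‖) := Real.log_le_log (by positivity) hy1
    rw [Real.log_div hs'0.ne' (by norm_num)] at h1
    have h2 : Real.log (Real.exp T / 96) ≤ Real.log s' := Real.log_le_log (by positivity) hs'E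
    rw [Real.log_div (Real.exp_pos _).ne' (by norm_num), Real.log_exp] at h2
    linarith
  have hre : |w.re| ≤ s - 80 := by
    rw [hwre, abs_le]
    constructor <;> linarith
  have hpi := Real.pi_lt_four
  have hwle : ‖w‖ ≤ 2 * s := by
    have h1 := Complex.norm_le_abs_re_add_abs_im w
    have h2 : |w.im| ≤ s + 8 := by
      rw [abs_le]
      constructor <;> linarith
    linarith
  have hwge : s ≤ ‖w‖ := by
    have h1 := Complex.abs_im_le_norm w
    have h2 : s ≤ |w.im| := hw2.trans (le_abs_self _)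
    linarith
  set z : ℂ := w / n with hz
  have hzn : ‖z‖ = ‖w‖ / n := by rw [hz, norm_div, Complex.norm_natCast]
  have hz3 : ‖z‖ ≤ 1 / 3 := by
    rw [hzn, div_le_iff₀ hn0]
    linarith
  have hz1 : ‖Complex.exp z - 1‖ ≤ 2 * ‖z‖ := Complex.norm_exp_sub_one_le (by linarith)
  have hz2 : ‖z‖ / 2 ≤ ‖Complex.exp z - 1‖ := by
    have h1 := Complex.norm_exp_sub_one_sub_id_le (x := z) (by linarith)
    have h2 : ‖z‖ ≤ ‖Complex.exp z - 1‖ + ‖Complex.exp z - 1 - z‖ := by
      have := norm_sub_le (Complex.exp z - 1) (Complex.exp z - 1 - z)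
      rwa [sub_sub_cancel] at this
    have h3 := norm_nonneg z
    nlinarith
  set u : ℂ := c * Complex.exp z with hu
  have huc : ‖u - c‖ = ‖c‖ * ‖Complex.exp z - 1‖ := by
    rw [← norm_mul, hu]
    congr 1
    ring
  have hc4 := norm_le_four hn hc2
  have hun : ‖u‖ ^ n = ‖y - c‖ := by rw [← norm_pow, hw4]
  have hu2 : ‖u‖ ≤ 2 := by
    by_contra hcon
    push Not at hcon
    have h1 : (2 : ℝ) ^ 2 ≤ 2 ^ n := pow_le_pow_right₀ (by norm_num) hn
    have h2 : (2 : ℝ) ^ n < ‖u‖ ^ n := pow_lt_pow_left₀ hcon (by norm_num) (by omega)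
    rw [hun] at h2
    nlinarith
  refine ⟨u, hy.root hn hr hno hw4 ?_, ?_, ?_⟩
  · have h1 : ‖u‖ ^ n = ‖u‖ ^ (n - 1) * ‖u‖ := by
      rw [← pow_succ, Nat.sub_add_cancel (by omega)]
    have h2 : 200 / 24 ≤ n * (‖u‖ ^ (n - 1) * ‖u‖) := by
      rw [← h1, hun]
      linarith
    have h3 : 0 ≤ n * ‖u‖ ^ (n - 1) := by positivity
    nlinarith
  · rw [huc]
    have h1 : ‖w‖ = n * ‖z‖ := by rw [hzn]; field_simp
    have h2 : (1 / 2) * (‖z‖ / 2) ≤ ‖c‖ * ‖Complex.exp z - 1‖ := by
      gcongr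
    nlinarith
  · rw [huc]
    have h1 : ‖w‖ = n * ‖z‖ := by rw [hzn]; field_simp
    have h2 : ‖c‖ * ‖Complex.exp z - 1‖ ≤ 4 * (2 * ‖z‖) := by
      gcongr
    nlinarith

theorem log_le_sixteenth {x : ℝ} (hx : 0 < x) : Real.log x ≤ x / 16 + 14 := by
  have h1 := Real.log_le_sub_one_of_pos (show 0 < x / 16 by positivity)
  have h2 := Real.log_le_sub_one_of_pos (show (0:ℝ) < 16 by norm_num)
  rw [Real.log_div hx.ne' (by norm_num)] at h1
  linarith

/-- **Followed preimages at all distances.** -/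
theorem stat_all (hn : 2 ≤ n) (hr : 0 < r) (hno : NoCen n c r) (hc1 : 1 / 2 ≤ ‖c‖)
    (hc2 : ‖c‖ ^ (n - 1) ≤ 4) : Stat n c r (1000 * (1 + max 0 (-TT n c))) := by
  have hn0 : (0 : ℝ) < n := by
    have : 0 < n := by omega
    exact_mod_cast this
  have hc4 := norm_le_four hn hc2
  set m := 1000 * (1 + max 0 (-TT n c)) with hm
  have hT0 := le_max_left 0 (-TT n c)
  have hT1 := le_max_right 0 (-TT n c)
  have hm0 : 1000 ≤ m := by linarith
  have key : ∀ k : ℕ, Stat n c r (max m (n / 6 / 2 ^ k)) := by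
    intro k
    induction k with
    | zero =>
      intro s hs hsn
      have h1 : (n : ℝ) / 6 / 2 ^ 0 ≤ s := (le_max_right _ _).trans hs
      rw [pow_zero, div_one] at h1
      have h2 : s = n / 6 := le_antisymm hsn h1
      refine ⟨0, good_zero, ?_, ?_⟩
      · rw [zero_sub, norm_neg, h2]
        nlinarith
      · rw [zero_sub, norm_neg, h2]
        nlinarith
    | succ k ih =>
      intro s hs hsn
      rcases le_or_gt (max m (n / 6 / 2 ^ k)) s with h1 | h1
      · exact ih s h1 hsn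
      · have hms : m ≤ s := (le_max_left _ _).trans hs
        have h2 : max m (n / 6 / 2 ^ k) = n / 6 / 2 ^ k := by
          rcases max_cases m ((n : ℝ) / 6 / 2 ^ k) with h3 | h3
          · linarith [h3.1]
          · exact h3.1
        rw [h2] at h1 ih
        have h3 : (n : ℝ) / 6 / 2 ^ k / 2 ≤ s := by
          refine le_trans ?_ ((le_max_right _ _).trans hs)
          rw [pow_succ, div_div _ _ (2:ℝ)]
        have h4 : (n : ℝ) / 6 / 2 ^ k ≤ n / 6 := div_le_self (by positivity) (one_le_pow₀ (by norm_num))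
        have h5 := ih.step hn hr hno hc1 hc2 (by linarith) h4
        apply h5 s _ hsn
        have h6 : Real.log (n / 6 / 2 ^ k) ≤ n / 6 / 2 ^ k / 16 + 14 :=
          log_le_sixteenth (by positivity)
        have h7 : max 0 (Real.log (n / 6 / 2 ^ k) - TT n c) ≤
            n / 6 / 2 ^ k / 16 + 14 + max 0 (-TT n c) := by
          apply max_le
          · have : (0:ℝ) ≤ n / 6 / 2 ^ k / 16 := by positivity
            linarith
          · linarith
        have h8 : m ≤ n / 6 / 2 ^ k := by linarith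
        linarith
  have hpos : (0:ℝ) < n / 6 := by positivity
  obtain ⟨k, hk⟩ := pow_unbounded_of_one_lt (n / 6 / m) (one_lt_two : (1 : ℝ) < 2)
  have h1 : (n : ℝ) / 6 / 2 ^ k ≤ m := by
    rw [div_lt_iff₀ (by linarith)] at hk
    rw [div_le_iff₀ (by positivity)]
    linarith
  have h2 := key k
  rwa [max_eq_left h1] at h2

theorem exists_good (hn : 2 ≤ n) (hr : 0 < r) (hno : NoCen n c r) (hc1 : 1 / 2 ≤ ‖c‖)
    (hc2 : ‖c‖ ^ (n - 1) ≤ 4) {s : ℝ} (hs : 1000 * (1 + max 0 (-TT n c)) ≤ s)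
    (hsn : s ≤ 16 * n) : ∃ y, Good n c r y ∧ s / 32 ≤ n * ‖y - c‖ ∧ n * ‖y - c‖ ≤ 32 * s := by
  have hn0 : (0 : ℝ) < n := by
    have : 0 < n := by omega
    exact_mod_cast this
  have hc4 := norm_le_four hn hc2
  have hT0 := le_max_left 0 (-TT n c)
  rcases le_or_gt s (n / 6) with h | h
  · obtain ⟨y, hy, h1, h2⟩ := stat_all hn hr hno hc1 hc2 s hs h
    exact ⟨y, hy, by linarith, by linarith⟩
  · refine ⟨0, good_zero, ?_, ?_⟩
    · rw [zero_sub, norm_neg]
      nlinarith
    · rw [zero_sub, norm_neg]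
      nlinarith

end Pool.Agent.Helper134.U1
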