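import Mathlib
import Pool.Agent.Helper134_U1.Stat

/-!
# The distance to the superattracting parameters, uniformly in the degree and in the order
-/

set_option autoImplicit false
open Set Filter Topology Metric

namespace Pool.Agent.Helper134.U1

open Pool.Agent.H712R2 (P fc P_succ P_one P_zero)
open Pool.Agent.Helper217.Width (A₀ one_le_A₀ SL)

variable {n : ℕ} {c : ℂ} {r : ℝ}

/-- The logarithmic factor. -/
noncomputable def Lam (n : ℕ) (z : ℂ) : ℝ := max 0 (Real.log (1 / (n * ‖z‖ ^ (n - 1))))

theorem Lam_nonneg (n : ℕ) (z : ℂ) : 0 ≤ Lam n z := le_max_left _ _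

theorem log_lam (hn : 2 ≤ n) {z : ℂ} (hz : z ≠ 0) :
    Real.log (1 / (n * ‖z‖ ^ (n - 1))) = -Real.log n - (n - 1) * Real.log ‖z‖ := by
  have hn0 : (0 : ℝ) < n := by
    have : 0 < n := by omega
    exact_mod_cast this
  have hz0 : 0 < ‖z‖ := norm_pos_iff.mpr hz
  rw [one_div, Real.log_inv, Real.log_mul hn0.ne' (by positivity), Real.log_pow,
    Nat.cast_sub (by omega), Nat.cast_one]
  ring

theorem neg_log_le (hn : 2 ≤ n) {z : ℂ} (hz : z ≠ 0) : -Real.log ‖z‖ ≤ 1 + Lam n z := by
  have hn2 : (2 : ℝ) ≤ n := by exact_mod_cast hn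
  have h1 := log_lam hn hz
  have h2 : Real.log (1 / (n * ‖z‖ ^ (n - 1))) ≤ Lam n z := le_max_right _ _
  have h3 := Lam_nonneg n z
  have h4 := Real.log_le_sub_one_of_pos (show (0:ℝ) < n by linarith)
  rcases le_or_gt (-Real.log ‖z‖) 0 with h5 | h5
  · linarith
  · rw [h1] at h2
    have h6 : ((n : ℝ) - 1) * (-Real.log ‖z‖) ≤ Lam n z + (n - 1) := by linarith
    have h7 : ((n : ℝ) - 1) * (-Real.log ‖z‖) ≤ (n - 1) * (1 + Lam n z) := by
      nlinarith
    exact le_of_mul_le_mul_left h7 (by linarith)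

theorem neg_log_pow_le (hn : 2 ≤ n) {z : ℂ} (hz : z ≠ 0) :
    -Real.log (n * ‖z‖ ^ n) ≤ 1 + 2 * Lam n z := by
  have hn0 : (0 : ℝ) < n := by
    have : 0 < n := by omega
    exact_mod_cast this
  have hz0 : 0 < ‖z‖ := norm_pos_iff.mpr hz
  have h1 := neg_log_le hn hz
  have h2 := log_lam hn hz
  have h3 : Real.log (1 / (n * ‖z‖ ^ (n - 1))) ≤ Lam n z := le_max_right _ _
  rw [Real.log_mul hn0.ne' (by positivity), Real.log_pow]
  rw [h2] at h3
  linarith

theorem one_add_pow (hn : 2 ≤ n) : (1 + 1 / (n : ℝ)) ^ n ≤ 3 := by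
  have hn0 : (0 : ℝ) < n := by
    have : 0 < n := by omega
    exact_mod_cast this
  have h1 : 1 + 1 / (n : ℝ) ≤ Real.exp (1 / n) := by
    have := Real.add_one_le_exp (1 / (n : ℝ))
    linarith
  calc (1 + 1 / (n : ℝ)) ^ n ≤ Real.exp (1 / n) ^ n := by gcongr
    _ = Real.exp 1 := by
        rw [← Real.exp_nat_mul]
        congr 1
        field_simp
    _ ≤ 3 := by
        have := Real.exp_one_lt_d9
        linarith

/-- Deep inside the main component. -/
theorem deep (hn : 2 ≤ n) (h4 : n * ‖c‖ ^ (n - 1) ≤ 1 / 4) : ∀ j, 1 ≤ j →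
    ‖P n j c‖ ≤ ‖c‖ * (1 + 1 / n) ∧ ‖c‖ / 2 ≤ ‖P n j c‖ ∧ ‖deriv (P n j) c‖ ≤ 4 := by
  have hn0 : (0 : ℝ) < n := by
    have : 0 < n := by omega
    exact_mod_cast this
  have hc0 := norm_nonneg c
  have hpn := one_add_pow hn
  have hcn : ‖c‖ ^ n = ‖c‖ ^ (n - 1) * ‖c‖ := by
    rw [← pow_succ, Nat.sub_add_cancel (by omega)]
  intro j hj
  induction j, hj using Nat.le_induction with
  | base =>
    have h1 : P n 1 = id := by
      funext t
      exact P_one hn t
    rw [h1]
    refine ⟨?_, ?_, ?_⟩
    · simp only [id]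
      have : 0 ≤ ‖c‖ * (1 / n) := by positivity
      linarith
    · simp only [id]
      linarith
    · rw [deriv_id, norm_one]
      norm_num
  | succ j hj ih =>
    obtain ⟨h1, h2, h3⟩ := ih
    have h5 : ‖P n j c‖ ^ n ≤ ‖c‖ * (3 / (4 * n)) := by
      calc ‖P n j c‖ ^ n ≤ (‖c‖ * (1 + 1 / n)) ^ n := by gcongr
        _ = ‖c‖ ^ (n - 1) * ‖c‖ * (1 + 1 / n) ^ n := by rw [mul_pow, hcn]
        _ ≤ ‖c‖ ^ (n - 1) * ‖c‖ * 3 := by gcongr
        _ = (n * ‖c‖ ^ (n - 1)) * (‖c‖ * (3 / n)) := by field_simp
        _ ≤ 1 / 4 * (‖c‖ * (3 / n)) := by gcongr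
        _ = _ := by field_simp
    have h6 : 3 / (4 * (n : ℝ)) ≤ 1 / n := by
      rw [div_le_div_iff₀ (by positivity) hn0]
      linarith
    have h7 : (1 : ℝ) / n ≤ 1 / 2 := by
      have : (2 : ℝ) ≤ n := by exact_mod_cast hn
      gcongr
    refine ⟨?_, ?_, ?_⟩
    · rw [P_succ]
      refine (norm_add_le _ _).trans ?_
      rw [norm_pow]
      have : ‖c‖ * (3 / (4 * n)) ≤ ‖c‖ * (1 / n) := by gcongr
      linarith
    · rw [P_succ]
      have h8 := norm_sub_norm_le c (-(P n j c ^ n))
      rw [norm_neg, norm_pow, sub_neg_eq_add, add_comm c] at h8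
      have : ‖c‖ * (3 / (4 * n)) ≤ ‖c‖ * (1 / 2) :=
        mul_le_mul_of_nonneg_left (h6.trans h7) hc0
      linarith
    · have hPd : HasDerivAt (P n j) (deriv (P n j) c) c :=
        (Pool.Agent.H713R2.differentiable_P n j c).hasDerivAt
      have h8 := (hPd.pow n).add (hasDerivAt_id c)
      have h9 : P n (j + 1) = (P n j) ^ n + id := by
        funext t
        simp only [Pi.add_apply, Pi.pow_apply, id, P_succ]
      rw [h9, h8.deriv]
      refine (norm_add_le _ _).trans ?_
      rw [norm_one, norm_mul, norm_mul, norm_pow, Complex.norm_natCast]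
      have h10 : n * ‖P n j c‖ ^ (n - 1) ≤ 3 / 4 := by
        calc n * ‖P n j c‖ ^ (n - 1) ≤ n * (‖c‖ * (1 + 1 / n)) ^ (n - 1) := by gcongr
          _ = (n * ‖c‖ ^ (n - 1)) * (1 + 1 / n) ^ (n - 1) := by rw [mul_pow]; ring
          _ ≤ 1 / 4 * (1 + 1 / n) ^ n := by
              gcongr
              · have : (0 : ℝ) ≤ 1 / n := by positivity
                linarith
              · omega
          _ ≤ 1 / 4 * 3 := by gcongr
          _ = 3 / 4 := by norm_num
      have h11 := norm_nonneg (deriv (P n j) c)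
      have h12 : 0 ≤ n * ‖P n j c‖ ^ (n - 1) := by positivity
      nlinarith

theorem r_le (hn : 2 ≤ n) (hno : NoCen n c r) : r ≤ ‖c‖ := by
  by_contra hcon
  push Not at hcon
  refine hno 0 ?_ 1 le_rfl (P_one hn 0)
  rw [mem_ball, dist_eq_norm, zero_sub, norm_neg]
  exact hcon

/-- The size of the logarithm of the cross ratio. -/
theorem log_bound {p m a : ℝ} (hp : 0 < p) (hm : 1000 ≤ m) (ha1 : max p m / 32 ≤ a)
    (ha2 : a ≤ 32 * max p m) :
    |Real.log (p / a)| ≤ 31 + Real.log m + max 0 (-Real.log p) := by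
  set s := max p m with hs
  have hs0 : 0 < s := lt_max_of_lt_left hp
  have ha0 : 0 < a := lt_of_lt_of_le (by positivity) ha1
  have h32 : Real.log 32 ≤ 31 := by
    have := Real.log_le_sub_one_of_pos (show (0:ℝ) < 32 by norm_num)
    linarith
  have hm0 : 0 ≤ Real.log m := Real.log_nonneg (by linarith)
  have h0 := le_max_left 0 (-Real.log p)
  have h1 := le_max_right 0 (-Real.log p)
  rw [Real.log_div hp.ne' ha0.ne', abs_le]
  have h2 : Real.log s - Real.log 32 ≤ Real.log a := by
    rw [← Real.log_div hs0.ne' (by norm_num)]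
    exact Real.log_le_log (by positivity) ha1
  have h3 : Real.log a ≤ Real.log 32 + Real.log s := by
    rw [← Real.log_mul (by norm_num) hs0.ne']
    exact Real.log_le_log ha0 ha2
  have h4 : Real.log p ≤ Real.log s := Real.log_le_log hp (le_max_left _ _)
  constructor
  · rcases le_total p m with h5 | h5
    · have : s = m := max_eq_right h5
      rw [this] at h3
      linarith
    · have : s = p := max_eq_left h5
      rw [this] at h3
      linarith
  · linarith

theorem log_thousand {x : ℝ} (hx : 0 ≤ x) :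
    Real.log (1000 * (1 + x)) ≤ 999 + Real.log (1 + x) := by
  rw [Real.log_mul (by norm_num) (by linarith)]
  have := Real.log_le_sub_one_of_pos (show (0:ℝ) < 1000 by norm_num)
  linarith

/-- The parameters which are not deep inside the main component. -/
theorem shallow (hn : 2 ≤ n) (hr : 0 < r) (hno : NoCen n c r) (hc2 : ‖c‖ ^ (n - 1) ≤ 4)
    (hI : 1000 * (1 + max 0 (-TT n c)) ≤ n / 6) {j : ℕ} (hj : 1 ≤ j)
    (hPj : ‖P n j c‖ ^ (n - 1) ≤ 4) :
    r * n * ‖deriv (P n j) c‖ ≤ 1422 * A₀ * ‖P n j c‖ * (1 + Lam n (P n j c)) := by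
  have hn0 : (0 : ℝ) < n := by
    have : 0 < n := by omega
    exact_mod_cast this
  have hA := one_le_A₀
  set T := TT n c with hT
  have hT0 := le_max_left 0 (-T)
  have hT1 := le_max_right 0 (-T)
  set t := max 0 (-T) with ht
  have hrc := r_le hn hno
  have hc0 : 0 < ‖c‖ := by linarith
  -- `c` is not small
  have hc1 : 1 / 2 ≤ ‖c‖ := by
    by_contra hcon
    push Not at hcon
    have h1 : Real.log ‖c‖ < Real.log (1 / 2) := Real.log_lt_log hc0 hcon
    rw [Real.log_div one_ne_zero two_ne_zero, Real.log_one] at h1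
    have h2 := Real.log_two_gt_d9
    have h3 := log_le_sixteenth hn0
    have h4 : T = Real.log n + n * Real.log ‖c‖ := hT
    have h5 : (n : ℝ) * Real.log ‖c‖ ≤ n * (-(1 / 2)) := by
      apply mul_le_mul_of_nonneg_left _ hn0.le
      linarith
    linarith
  have hc4 := norm_le_four hn hc2
  have hE := exp_TT hn hc0
  rw [← hT] at hE
  have hm : 1000 ≤ 1000 * (1 + t) := by linarith
  -- the radius
  have hrn : r * n ≤ 6000 * A₀ * (1 + t) := by
    have hp16 : n * ‖c‖ ^ n ≤ 16 * n := by
      have := norm_pow_le hn hc2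
      nlinarith
    obtain ⟨y, hy, hy1, hy2⟩ := exists_good hn hr hno hc1 hc2
      (s := max (n * ‖c‖ ^ n) (1000 * (1 + t))) (le_max_right _ _)
      (max_le hp16 (by linarith))
    have h1 := landau hn hr hno hy le_rfl
    have h2 : P n 1 = id := by
      funext t
      exact P_one hn t
    rw [h2, deriv_id, norm_one, mul_one, id] at h1
    have hyc : 0 < ‖y - c‖ := norm_pos_iff.mpr (sub_ne_zero.mpr (hy.ne hn hr hno))
    have h3 := log_bound (p := n * ‖c‖ ^ n) (by positivity) hm hy1 hy2
    rw [mul_div_mul_left _ _ hn0.ne'] at h3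
    have h4 : Real.log (n * ‖c‖ ^ n) = T := by rw [← hE, Real.log_exp]
    rw [h4] at h3
    have h5 := log_thousand hT0
    have h6 := Real.log_le_sub_one_of_pos (show 0 < 1 + t by linarith)
    have h7 : |Real.log (‖c‖ ^ n / ‖y - c‖)| ≤ 1030 * (1 + t) := by linarith
    have h8 : 2 * r / ‖y - c‖ ≤ 64 / 1000 * (r * n) := by
      rw [div_le_iff₀ hyc]
      have h9 : 1000 ≤ 32 * (n * ‖y - c‖) := by
        have := le_max_right (n * ‖c‖ ^ n) (1000 * (1 + t))
        linarith
      nlinarith
    have h9 : r * n ≤ 4 * (A₀ * (1 + 1030 * (1 + t)) + 64 / 1000 * (r * n)) := by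
      refine h1.trans ?_
      gcongr
    have h10 : A₀ * (1 + 1030 * (1 + t)) ≤ 1031 * A₀ * (1 + t) := by nlinarith
    nlinarith
  -- the general order
  have hPne : P n j c ≠ 0 := hno c (mem_ball_self hr) j hj
  have hP0 : 0 < ‖P n j c‖ := norm_pos_iff.mpr hPne
  set p := n * ‖P n j c‖ ^ n with hp
  have hp0 : 0 < p := by positivity
  have hp16 : p ≤ 16 * n := by
    have := norm_pow_le hn hPj
    rw [hp]
    nlinarith
  obtain ⟨y, hy, hy1, hy2⟩ := exists_good hn hr hno hc1 hc2
    (s := max p (1000 * (1 + t))) (le_max_right _ _) (max_le hp16 (by linarith))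
  have h1 := landau hn hr hno hy hj
  have hyc : 0 < ‖y - c‖ := norm_pos_iff.mpr (sub_ne_zero.mpr (hy.ne hn hr hno))
  have h3 := log_bound hp0 hm hy1 hy2
  rw [hp, mul_div_mul_left _ _ hn0.ne', ← hp] at h3
  have h5 := log_thousand hT0
  have h6 := Real.log_le_sub_one_of_pos (show 0 < 1 + t by linarith)
  have hΛ := Lam_nonneg n (P n j c)
  have h7 : max 0 (-Real.log p) ≤ 1 + 2 * Lam n (P n j c) := by
    apply max_le
    · linarith
    · exact neg_log_pow_le hn hPne
  have hq0 := le_max_left 0 (-Real.log p)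
  have hq1 := le_max_right 0 (-Real.log p)
  have h8 : Real.log (1 + t) ≤ 5 + max 0 (-Real.log p) := by
    rcases le_or_gt (-5) T with h9 | h9
    · have : t ≤ 5 := max_le (by norm_num) (by linarith)
      linarith
    · have ht' : t = -T := max_eq_right (by linarith)
      have h10 : n * ‖c‖ ^ (n - 1) ≤ 1 / 4 := by
        have h11 : n * ‖c‖ ^ n = n * ‖c‖ ^ (n - 1) * ‖c‖ := by
          rw [mul_assoc, ← pow_succ, Nat.sub_add_cancel (by omega)]
        have h12 : Real.exp T ≤ 1 / 8 := by
          have h13 : Real.exp T ≤ Real.exp (-5) := Real.exp_le_exp.2 h9.le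
          have h14 : Real.exp (-5) ≤ 1 / 6 * 3 / 4 := by
            rw [Real.exp_neg]
            have h15 : (8:ℝ) ≤ Real.exp 5 := by
              have h16 := Real.add_one_le_exp (1 : ℝ)
              have h17 : Real.exp 5 = Real.exp 1 ^ 5 := by
                rw [← Real.exp_nat_mul]
                norm_num
              rw [h17]
              calc (8:ℝ) ≤ 2 ^ 5 := by norm_num
                _ ≤ Real.exp 1 ^ 5 := by
                  gcongr
                  linarith
            calc (Real.exp 5)⁻¹ ≤ (8 : ℝ)⁻¹ := by gcongr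
              _ ≤ _ := by norm_num
          calc Real.exp T ≤ _ := h13
            _ ≤ _ := h14
            _ ≤ 1 / 8 := by norm_num
        rw [hE, h11] at h12
        have h13 : 0 ≤ n * ‖c‖ ^ (n - 1) := by positivity
        nlinarith
      have h11 := (deep hn h10 j hj).1
      have h12 : p ≤ 3 * Real.exp T := by
        rw [hE, hp]
        calc n * ‖P n j c‖ ^ n ≤ n * (‖c‖ * (1 + 1 / n)) ^ n := by gcongr
          _ = n * ‖c‖ ^ n * (1 + 1 / n) ^ n := by rw [mul_pow]; ring
          _ ≤ n * ‖c‖ ^ n * 3 := by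
              gcongr
              exact one_add_pow hn
          _ = _ := by ring
      have h13 : Real.log p ≤ Real.log 3 + T := by
        have := Real.log_le_log hp0 h12
        rwa [Real.log_mul (by norm_num) (Real.exp_pos _).ne', Real.log_exp] at this
      have h14 := Real.log_le_sub_one_of_pos (show (0:ℝ) < 3 by norm_num)
      linarith
  have h9 : |Real.log (‖P n j c‖ ^ n / ‖y - c‖)| ≤ 1037 + 4 * Lam n (P n j c) := by linarith
  have h10 : 2 * r / ‖y - c‖ ≤ 384 * A₀ := by
    rw [div_le_iff₀ hyc]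
    have h11 : 1000 * (1 + t) ≤ 32 * (n * ‖y - c‖) := by
      have := le_max_right p (1000 * (1 + t))
      linarith
    have h12 : r * n ≤ 192 * A₀ * (n * ‖y - c‖) := by
      calc r * n ≤ 6000 * A₀ * (1 + t) := hrn
        _ = 6 * A₀ * (1000 * (1 + t)) := by ring
        _ ≤ 6 * A₀ * (32 * (n * ‖y - c‖)) := by gcongr
        _ = _ := by ring
    have h13 : n * r ≤ n * (192 * A₀ * ‖y - c‖) := by linarith
    have h14 := le_of_mul_le_mul_left h13 hn0
    linarith
  refine h1.trans ?_
  have h11 : A₀ * (1 + |Real.log (‖P n j c‖ ^ n / ‖y - c‖)|) + 2 * r / ‖y - c‖ ≤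
      1422 * A₀ * (1 + Lam n (P n j c)) := by
    have h12 : A₀ * (1 + |Real.log (‖P n j c‖ ^ n / ‖y - c‖)|) ≤
        A₀ * (1 + (1037 + 4 * Lam n (P n j c))) := by gcongr
    nlinarith
  calc ‖P n j c‖ * (A₀ * (1 + |Real.log (‖P n j c‖ ^ n / ‖y - c‖)|) + 2 * r / ‖y - c‖)
      ≤ ‖P n j c‖ * (1422 * A₀ * (1 + Lam n (P n j c))) := by gcongr
    _ = _ := by ring

/-- **The distance to the superattracting parameters.** -/
theorem main (hn : 2 ≤ n) (hr : 0 < r) (hno : NoCen n c r) (hc2 : ‖c‖ ^ (n - 1) ≤ 4) {j : ℕ}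
    (hj : 1 ≤ j) (hPj : ‖P n j c‖ ^ (n - 1) ≤ 4) :
    r * n * ‖deriv (P n j) c‖ ≤ 1000000 * A₀ * ‖P n j c‖ * (1 + Lam n (P n j c)) := by
  have hn0 : (0 : ℝ) < n := by
    have : 0 < n := by omega
    exact_mod_cast this
  have hn2 : (2 : ℝ) ≤ n := by exact_mod_cast hn
  have hA := one_le_A₀
  have hPne : P n j c ≠ 0 := hno c (mem_ball_self hr) j hj
  have hP0 : 0 < ‖P n j c‖ := norm_pos_iff.mpr hPne
  have hΛ := Lam_nonneg n (P n j c)
  have hrc := r_le hn hno
  have hc0 : 0 < ‖c‖ := by linarith
  have hAP : 0 ≤ A₀ * ‖P n j c‖ * (1 + Lam n (P n j c)) := by positivity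
  rcases le_or_gt (1000 * (1 + max 0 (-TT n c))) (n / 6) with hI | hI
  · refine (shallow hn hr hno hc2 hI hj hPj).trans ?_
    nlinarith
  · by_cases h4 : n * ‖c‖ ^ (n - 1) ≤ 1 / 4
    · obtain ⟨h1, h2, h3⟩ := deep hn h4 j hj
      have h5 : r * n * ‖deriv (P n j) c‖ ≤ 8 * n * ‖P n j c‖ := by
        calc r * n * ‖deriv (P n j) c‖ ≤ ‖c‖ * n * 4 := by gcongr
          _ = 8 * n * (‖c‖ / 2) := by ring
          _ ≤ 8 * n * ‖P n j c‖ := by gcongr
      rcases le_or_gt n 120000 with h6 | h6
      · have h7 : (n : ℝ) ≤ 120000 := by exact_mod_cast h6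
        calc r * n * ‖deriv (P n j) c‖ ≤ 8 * n * ‖P n j c‖ := h5
          _ ≤ 8 * 120000 * ‖P n j c‖ := by gcongr
          _ ≤ 1000000 * 1 * ‖P n j c‖ * (1 + 0) := by nlinarith
          _ ≤ _ := by gcongr
      · have h7 : (120000 : ℝ) < n := by exact_mod_cast h6
        have hT : TT n c < -(n / 12000) := by
          have h8 : n / 12000 < max 0 (-TT n c) := by linarith
          rcases max_cases 0 (-TT n c) with h9 | h9
          · rw [h9.1] at h8; linarith
          · rw [h9.1] at h8; linarith
        have h8 : Real.log ‖P n j c‖ ≤ Real.log ‖c‖ + 1 / n := by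
          calc Real.log ‖P n j c‖ ≤ Real.log (‖c‖ * (1 + 1 / n)) := Real.log_le_log hP0 h1
            _ = Real.log ‖c‖ + Real.log (1 + 1 / n) := Real.log_mul hc0.ne' (by positivity)
            _ ≤ Real.log ‖c‖ + 1 / n := by
              have := Real.log_le_sub_one_of_pos (show 0 < 1 + 1 / (n:ℝ) by positivity)
              linarith
        have h9 := log_lam hn hPne
        have h10 : Real.log (1 / (n * ‖P n j c‖ ^ (n - 1))) ≤ Lam n (P n j c) := le_max_right _ _
        have h11 : TT n c = Real.log n + n * Real.log ‖c‖ := rfl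
        have h12 : Real.log n ≤ n - 1 := Real.log_le_sub_one_of_pos hn0
        -- `log (n |c| ^ (n - 1)) ≤ - n / 24000 + 1`
        have h13 : Real.log n + (n - 1) * Real.log ‖c‖ ≤ -(n / 24000) + 1 := by
          have h14 : (n : ℝ) * (Real.log n + (n - 1) * Real.log ‖c‖) =
              (n - 1) * TT n c + Real.log n := by rw [h11]; ring
          have h15 : (n - 1) * TT n c ≤ (n / 2) * -(n / 12000) := by
            nlinarith
          have h16 : (n : ℝ) * (Real.log n + (n - 1) * Real.log ‖c‖) ≤
              n * (-(n / 24000) + 1) := by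
            rw [h14]
            nlinarith
          exact le_of_mul_le_mul_left h16 hn0
        have h14 : ((n : ℝ) - 1) * Real.log ‖P n j c‖ ≤ (n - 1) * Real.log ‖c‖ + 1 := by
          have h15 : ((n : ℝ) - 1) * Real.log ‖P n j c‖ ≤ (n - 1) * (Real.log ‖c‖ + 1 / n) := by
            apply mul_le_mul_of_nonneg_left h8
            linarith
          have h16 : ((n : ℝ) - 1) * (1 / n) ≤ 1 := by
            rw [mul_one_div, div_le_one hn0]
            linarith
          linarith
        have h15 : n / 48000 ≤ Lam n (P n j c) := by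
          rw [h9] at h10
          linarith
        calc r * n * ‖deriv (P n j) c‖ ≤ 8 * n * ‖P n j c‖ := h5
          _ = 384000 * ‖P n j c‖ * (n / 48000) := by ring
          _ ≤ 384000 * ‖P n j c‖ * Lam n (P n j c) := by gcongr
          _ ≤ 1000000 * 1 * ‖P n j c‖ * (1 + Lam n (P n j c)) := by
              have := mul_nonneg hP0.le hΛ
              nlinarith
          _ ≤ _ := by gcongr
    · push Not at h4
      rcases le_or_gt n 120000 with h6 | h6
      · have h7 : (n : ℝ) ≤ 120000 := by exact_mod_cast h6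
        have h1 := landau hn hr hno good_zero hj
        rw [zero_sub, norm_neg] at h1
        have h2 : |Real.log ‖P n j c‖| ≤ 3 + Lam n (P n j c) := by
          rw [abs_le]
          constructor
          · have := neg_log_le hn hPne
            linarith
          · have h8 : Real.log ‖P n j c‖ ≤ Real.log 4 :=
              Real.log_le_log hP0 (norm_le_four hn hPj)
            have h9 := Real.log_le_sub_one_of_pos (show (0:ℝ) < 4 by norm_num)
            linarith
        have h3 : |Real.log ‖c‖| ≤ 480000 := by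
          rw [abs_le]
          constructor
          · rcases le_or_gt 0 (Real.log ‖c‖) with h8 | h8
            · linarith
            · have h9 : Real.log (1 / 4) ≤ Real.log (n * ‖c‖ ^ (n - 1)) :=
                Real.log_le_log (by norm_num) h4.le
              rw [Real.log_mul hn0.ne' (by positivity), Real.log_pow, Nat.cast_sub (by omega),
                Nat.cast_one, one_div, Real.log_inv] at h9
              have h10 := Real.log_le_sub_one_of_pos (show (0:ℝ) < 4 by norm_num)
              have h11 := Real.log_le_sub_one_of_pos hn0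
              nlinarith
          · have h8 : Real.log ‖c‖ ≤ Real.log 4 :=
              Real.log_le_log hc0 (norm_le_four hn hc2)
            have h9 := Real.log_le_sub_one_of_pos (show (0:ℝ) < 4 by norm_num)
            linarith
        have h5 : |Real.log (‖P n j c‖ ^ n / ‖c‖)| ≤ 840000 + 120000 * Lam n (P n j c) := by
          rw [Real.log_div (by positivity) hc0.ne', Real.log_pow]
          calc |n * Real.log ‖P n j c‖ - Real.log ‖c‖|
              ≤ |n * Real.log ‖P n j c‖| + |Real.log ‖c‖| := abs_sub _ _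
            _ ≤ 120000 * (3 + Lam n (P n j c)) + 480000 := by
                rw [abs_mul, abs_of_pos hn0]
                gcongr
            _ = _ := by ring
        have h8 : 2 * r / ‖c‖ ≤ 2 := by
          rw [div_le_iff₀ hc0]
          linarith
        calc r * n * ‖deriv (P n j) c‖
            ≤ ‖P n j c‖ * (A₀ * (1 + |Real.log (‖P n j c‖ ^ n / ‖c‖)|) + 2 * r / ‖c‖) := h1
          _ ≤ ‖P n j c‖ * (A₀ * (1 + (840000 + 120000 * Lam n (P n j c))) + 2) := by gcongr
          _ ≤ ‖P n j c‖ * (1000000 * A₀ * (1 + Lam n (P n j c))) := by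
              gcongr
              nlinarith
          _ = _ := by ring
      · exfalso
        have h7 : (120000 : ℝ) < n := by exact_mod_cast h6
        have hT : TT n c < -(n / 12000) := by
          have h8 : n / 12000 < max 0 (-TT n c) := by linarith
          rcases max_cases 0 (-TT n c) with h9 | h9
          · rw [h9.1] at h8; linarith
          · rw [h9.1] at h8; linarith
        have h11 : TT n c = Real.log n + n * Real.log ‖c‖ := rfl
        have h12 : Real.log n ≤ n - 1 := Real.log_le_sub_one_of_pos hn0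
        have h13 : Real.log n + (n - 1) * Real.log ‖c‖ ≤ -(n / 24000) + 1 := by
          have h14 : (n : ℝ) * (Real.log n + (n - 1) * Real.log ‖c‖) =
              (n - 1) * TT n c + Real.log n := by rw [h11]; ring
          have h15 : (n - 1) * TT n c ≤ (n / 2) * -(n / 12000) := by
            nlinarith
          have h16 : (n : ℝ) * (Real.log n + (n - 1) * Real.log ‖c‖) ≤
              n * (-(n / 24000) + 1) := by
            rw [h14]
            nlinarith
          exact le_of_mul_le_mul_left h16 hn0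
        have h9 : Real.log (1 / 4) ≤ Real.log (n * ‖c‖ ^ (n - 1)) :=
          Real.log_le_log (by norm_num) h4.le
        rw [Real.log_mul hn0.ne' (by positivity), Real.log_pow, Nat.cast_sub (by omega),
          Nat.cast_one, one_div, Real.log_inv] at h9
        have h10 := Real.log_le_sub_one_of_pos (show (0:ℝ) < 4 by norm_num)
        linarith

end Pool.Agent.Helper134.U1
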