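import Mathlib
import Pool.Agent.Helper134_U1.Main

/-!
# Existence of superattracting parameters near a given parameter
-/

set_option autoImplicit false
open Set Filter Topology Metric

namespace Pool.Agent.Helper134.U1

open Pool.Agent.H712R2 (P fc P_succ P_one P_zero)
open Pool.Agent.Helper217.Width (A₀ one_le_A₀ SL)

theorem exists_centre {n : ℕ} (hn : 2 ≤ n) {c : ℂ} (hc : ‖c‖ ^ (n - 1) ≤ 4) {j : ℕ} (hj : 1 ≤ j)
    (hPj : ‖P n j c‖ ^ (n - 1) ≤ 4) : ∃ c' : ℂ, (∃ m, 1 ≤ m ∧ P n m c' = 0) ∧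
      n * ‖deriv (P n j) c‖ * ‖c' - c‖ ≤
        2000000 * A₀ * ‖P n j c‖ * (1 + Lam n (P n j c)) := by
  have hA := one_le_A₀
  have hn0 : (0 : ℝ) < n := by
    have : 0 < n := by omega
    exact_mod_cast this
  have hΛ := Lam_nonneg n (P n j c)
  by_cases hP : P n j c = 0
  · refine ⟨c, ⟨j, hj, hP⟩, ?_⟩
    rw [sub_self, norm_zero, hP]
    simp
  have hP0 : 0 < ‖P n j c‖ := norm_pos_iff.mpr hP
  by_cases hD0 : deriv (P n j) c = 0
  · refine ⟨0, ⟨1, le_rfl, P_one hn 0⟩, ?_⟩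
    rw [hD0, norm_zero, mul_zero, zero_mul]
    positivity
  have hD1 : 0 < ‖deriv (P n j) c‖ := norm_pos_iff.mpr hD0
  have hX : 0 < A₀ * ‖P n j c‖ * (1 + Lam n (P n j c)) := by positivity
  set X := A₀ * ‖P n j c‖ * (1 + Lam n (P n j c)) with hXdef
  set R := 2000000 * X / (n * ‖deriv (P n j) c‖) with hR
  have hR0 : 0 < R := by positivity
  have hRX : n * ‖deriv (P n j) c‖ * R = 2000000 * X := by
    rw [hR]
    field_simp
  have hnot : ¬ NoCen n c R := by
    intro hno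
    have h1 := main hn hR0 hno hc hj hPj
    have h2 : 1000000 * A₀ * ‖P n j c‖ * (1 + Lam n (P n j c)) = 1000000 * X := by
      rw [hXdef]
      ring
    rw [h2] at h1
    linarith
  unfold NoCen at hnot
  push Not at hnot
  obtain ⟨t, ht, m, hm, htm⟩ := hnot
  refine ⟨t, ⟨m, hm, htm⟩, ?_⟩
  rw [mem_ball, dist_eq_norm] at ht
  calc n * ‖deriv (P n j) c‖ * ‖t - c‖ ≤ n * ‖deriv (P n j) c‖ * R := by gcongr
    _ = 2000000 * X := hRX
    _ = _ := by rw [hXdef]; ring

/-- Superattracting parameters belong to the Multibrot set. -/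
theorem centre_mem {n : ℕ} {c : ℂ} {m : ℕ} (hm : 1 ≤ m) (h : P n m c = 0) :
    c ∈ N62a1eb23.multibrotSet n := by
  intro htend
  have hper : ∀ k : ℕ, P n (k * m) c = 0 := by
    intro k
    have h1 : Function.IsPeriodicPt (fc n c) m 0 := h
    have h2 := h1.const_mul k
    exact h2
  have h1 : Tendsto (fun k => ‖P n k c‖) atTop atTop := tendsto_norm_cobounded_atTop.comp htend
  obtain ⟨N, hN⟩ := (h1.eventually (eventually_gt_atTop 0)).exists_forall_of_atTop
  have h2 := hN (N * m) (Nat.le_mul_of_pos_right N (by omega))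
  rw [hper, norm_zero] at h2
  exact lt_irrefl _ h2

end Pool.Agent.Helper134.U1
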